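import Mathlib

/-! PT module SA: the inequality of Sparre Andersen for lists of letters (cyclic shifts) -/

open Finset

namespace Pool.SA

variable {β : Type} [DecidableEq β]

/-- the lists of length exactly `n` over `P` -/
def listsN (P : Finset β) : ℕ → Finset (List β)
  | 0 => {[]}
  | n + 1 => (P ×ˢ listsN P n).image fun q => q.1 :: q.2

theorem mem_listsN {P : Finset β} {n : ℕ} {L : List β} :
    L ∈ listsN P n ↔ L.length = n ∧ ∀ p ∈ L, p ∈ P := by
  induction n generalizing L with
  | zero => simp [listsN]; intro h; simp [h]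
  | succ n ih =>
    cases L with
    | nil => simp [listsN]
    | cons a L =>
      simp only [listsN, mem_image, mem_product, Prod.exists, List.cons.injEq,
        List.length_cons, List.mem_cons, forall_eq_or_imp]
      constructor
      · rintro ⟨b, K, ⟨hb, hK⟩, rfl, rfl⟩
        have := ih.1 hK
        exact ⟨by omega, hb, this.2⟩
      · rintro ⟨h1, h2, h3⟩
        exact ⟨a, L, ⟨h2, ih.2 ⟨by omega, h3⟩⟩, rfl, rfl⟩

/-- total height -/
def hh (τ : β → ℕ) (L : List β) : ℕ := (L.map τ).sum

/-- total displacement -/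
def xs (x : β → ℤ) (L : List β) : ℤ := (L.map x).sum

/-- weight -/
def ww (w : β → ℝ) (L : List β) : ℝ := (L.map w).prod

/-- all nonempty initial segments have positive displacement -/
def Pos (x : β → ℤ) (L : List β) : Prop :=
  ∀ k, 1 ≤ k → k ≤ L.length → 0 < xs x (L.take k)

variable (P : Finset β) (w : β → ℝ) (τ : β → ℕ) (x : β → ℤ) (σ : β → β)

/-- weight of the lists of length `n` and height `c` -/
noncomputable def q (n c : ℕ) : ℝ := ∑ L ∈ (listsN P n).filter (fun L => hh τ L = c), ww w L

open Classical in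
/-- weight of the positive lists of length `n` and height `c` -/
noncomputable def p (n c : ℕ) : ℝ :=
  ∑ L ∈ (listsN P n).filter (fun L => hh τ L = c ∧ Pos x L), ww w L

open Classical in
/-- weight of the lists of length `n`, height `c` and positive displacement -/
noncomputable def W (n c : ℕ) : ℝ :=
  ∑ L ∈ (listsN P n).filter (fun L => hh τ L = c ∧ 0 < xs x L), ww w L

omit [DecidableEq β] in
theorem xs_append (A B : List β) : xs x (A ++ B) = xs x A + xs x B := by simp [xs]

omit [DecidableEq β] in
theorem hh_append (A B : List β) : hh τ (A ++ B) = hh τ A + hh τ B := by simp [hh]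

omit [DecidableEq β] in
theorem ww_append (A B : List β) : ww w (A ++ B) = ww w A * ww w B := by simp [ww]

omit [DecidableEq β] in
theorem ww_nonneg (hw : ∀ b, 0 ≤ w b) (A : List β) : 0 ≤ ww w A := by
  induction A with
  | nil => simp [ww]
  | cons a A ih =>
    have : ww w (a :: A) = w a * ww w A := by simp [ww]
    rw [this]; exact mul_nonneg (hw a) ih

/-- partial sums -/
def ps (x : β → ℤ) (L : List β) (k : ℕ) : ℤ := xs x (L.take k)

/-- `k` is the last place in `[i, n]` where the partial sums of `L` are minimal -/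
def IsLast (x : β → ℤ) (L : List β) (i k : ℕ) : Prop :=
  i ≤ k ∧ k ≤ L.length ∧ (∀ j, i ≤ j → j ≤ k → ps x L k ≤ ps x L j) ∧
    ∀ j, k < j → j ≤ L.length → ps x L k < ps x L j

omit [DecidableEq β] in
theorem exists_last (L : List β) (i : ℕ) (hi : i ≤ L.length) : ∃ k, IsLast x L i k := by
  classical
  -- minimise `ps`, then take the largest place
  obtain ⟨m, hm, hmin⟩ := Finset.exists_min_image (Finset.Icc i L.length) (fun j => ps x L j)
    ⟨i, Finset.mem_Icc.2 ⟨le_rfl, hi⟩⟩
  obtain ⟨k, hk, hmax⟩ := Finset.exists_max_image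
    ((Finset.Icc i L.length).filter fun j => ps x L j = ps x L m) (fun j => j)
    ⟨m, Finset.mem_filter.2 ⟨hm, rfl⟩⟩
  rw [Finset.mem_filter, Finset.mem_Icc] at hk
  refine ⟨k, hk.1.1, hk.1.2, fun j hj hj' => ?_, fun j hj hj' => ?_⟩
  · rw [hk.2]; exact hmin j (Finset.mem_Icc.2 ⟨hj, by omega⟩)
  · rw [hk.2]
    refine lt_of_le_of_ne (hmin j (Finset.mem_Icc.2 ⟨by omega, hj'⟩)) fun h => ?_
    have := hmax j (Finset.mem_filter.2 ⟨Finset.mem_Icc.2 ⟨by omega, hj'⟩, h.symm⟩)
    omega

omit [DecidableEq β] in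
theorem ps_take {L : List β} {k j : ℕ} (h : j ≤ k) : ps x (L.take k) j = ps x L j := by
  rw [ps, ps, List.take_take, min_eq_left h]

omit [DecidableEq β] in
theorem ps_drop {L : List β} {k j : ℕ} :
    ps x (L.drop k) j = ps x L (k + j) - ps x L k := by
  rw [ps, ps, ps, List.take_add, xs_append]; ring

/-- the pair of lists attached to `(L, i)` and the place `k` -/
def F (L : List β) (i k : ℕ) : List β × List β :=
  (((L.take k).drop i) ++ L.take i, L.drop k)

omit [DecidableEq β] in
theorem F_spec {L : List β} {i k : ℕ} (hL : Pos x L) (hi : 1 ≤ i) (h : IsLast x L i k) :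
    (F L i k).1.length = k ∧ xs x (F L i k).1 = ps x L k ∧ Pos x (F L i k).2 ∧
      IsLast x (F L i k).1 0 (k - i) := by
  obtain ⟨h1, h2, h3, h4⟩ := h
  have e0 : L.take i = (L.take k).take i := by rw [List.take_take, min_eq_left h1]
  have len1 : ((L.take k).drop i).length = k - i := by simp; omega
  have len2 : (L.take i).length = i := by simp; omega
  have elen : (F L i k).1.length = k := by
    show (((L.take k).drop i) ++ L.take i).length = k
    rw [List.length_append, len1, len2]; omega
  have e1 : ∀ j, j ≤ k - i → ps x (F L i k).1 j = ps x L (i + j) - ps x L i := by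
    intro j hj
    show xs x ((((L.take k).drop i) ++ L.take i).take j) = _
    rw [List.take_append_of_le_length (by rw [len1]; exact hj)]
    change ps x ((L.take k).drop i) j = _
    rw [ps_drop, ps_take x (by omega), ps_take x h1]
  have e2 : ∀ j, k - i ≤ j → j ≤ k → ps x (F L i k).1 j =
      ps x L k - ps x L i + ps x L (j - (k - i)) := by
    intro j hj hj'
    show xs x ((((L.take k).drop i) ++ L.take i).take j) = _
    rw [List.take_append, xs_append, len1, List.take_of_length_le (by rw [len1]; exact hj),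
      List.take_take, min_eq_left (by omega)]
    have : xs x ((L.take k).drop i) = ps x L k - ps x L i := by
      have h5 := ps_drop x (L := L.take k) (k := i) (j := k - i)
      rw [ps, List.take_of_length_le (by rw [len1])] at h5
      rw [h5, ps_take x (by omega), ps_take x h1]
      congr 2; omega
    rw [this]; rfl
  refine ⟨elen, ?_, ?_, ?_⟩
  · have := e2 k (by omega) le_rfl
    rw [ps, List.take_of_length_le (by rw [elen])] at this
    rw [this]
    have : k - (k - i) = i := by omega
    rw [this]; ring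
  · intro j hj hj'
    change 0 < ps x (L.drop k) j
    rw [ps_drop]
    have h6 : j ≤ L.length - k := by simpa [F] using hj'
    have := h4 (k + j) (by omega) (by omega)
    omega
  · refine ⟨Nat.zero_le _, by rw [elen]; omega, fun j _ hj => ?_, fun j hj hj' => ?_⟩
    · rw [e1 (k - i) le_rfl, e1 j hj]
      have := h3 (i + j) (by omega) (by omega)
      have e : i + (k - i) = k := by omega
      rw [e]; omega
    · rw [elen] at hj'
      rw [e1 (k - i) le_rfl, e2 j (by omega) hj']
      have e : i + (k - i) = k := by omega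
      rw [e]
      have := hL (j - (k - i)) (by omega) (by omega)
      change 0 < ps x L (j - (k - i)) at this
      omega

omit [DecidableEq β] in
theorem IsLast_unique {L : List β} {i k k' : ℕ} (h : IsLast x L i k) (h' : IsLast x L i k') :
    k = k' := by
  rcases lt_trichotomy k k' with h1 | h1 | h1
  · have := h.2.2.2 k' h1 h'.2.1
    have := h'.2.2.1 k h.1 h1.le
    omega
  · exact h1
  · have := h'.2.2.2 k h1 h.2.1
    have := h.2.2.1 k' h'.1 h1.le
    omega

omit [DecidableEq β] in
theorem F_inj {L L' : List β} {i i' k k' : ℕ} (hL : Pos x L) (hL' : Pos x L') (hi : 1 ≤ i)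
    (hi' : 1 ≤ i') (h : IsLast x L i k) (h' : IsLast x L' i' k') (hF : F L i k = F L' i' k') :
    L = L' ∧ i = i' := by
  obtain ⟨a1, _, _, a4⟩ := F_spec x hL hi h
  obtain ⟨b1, _, _, b4⟩ := F_spec x hL' hi' h'
  rw [hF] at a1 a4
  have hk : k = k' := by rw [← a1, b1]
  subst hk
  have h1 := IsLast_unique x a4 b4
  have hii : i = i' := by have := h.1; have := h'.1; omega
  subst hii
  refine ⟨?_, rfl⟩
  have e1 : ((L.take k).drop i) ++ L.take i = ((L'.take k).drop i) ++ L'.take i :=
    congrArg Prod.fst hF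
  have e2 : L.drop k = L'.drop k := congrArg Prod.snd hF
  have l1 : ((L.take k).drop i).length = ((L'.take k).drop i).length := by
    have := h.2.1; have := h'.2.1; simp; omega
  obtain ⟨e3, e4⟩ := List.append_inj e1 l1
  have e5 : L.take k = L'.take k := by
    have hik := h.1
    rw [← List.take_append_drop i (L.take k), ← List.take_append_drop i (L'.take k),
      List.take_take, List.take_take, min_eq_left hik, e3, e4]
  rw [← List.take_append_drop k L, ← List.take_append_drop k L', e5, e2]

/-- `binom(2n, n) / 4^n` -/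
noncomputable def kap (n : ℕ) : ℝ := (Nat.centralBinom n : ℝ) / 4 ^ n

theorem kap_nonneg (n : ℕ) : 0 ≤ kap n := by unfold kap; positivity

theorem kap_zero : kap 0 = 1 := by simp [kap]

theorem kap_succ (n : ℕ) : 2 * ((n : ℝ) + 1) * kap (n + 1) = (2 * n + 1) * kap n := by
  have h := Nat.succ_mul_centralBinom_succ n
  have h2 : ((n : ℝ) + 1) * (Nat.centralBinom (n + 1) : ℝ) =
      2 * (2 * n + 1) * Nat.centralBinom n := by exact_mod_cast h
  unfold kap
  rw [pow_succ]
  field_simp
  linarith

theorem sum_kap (n : ℕ) : ∑ j ∈ range n, kap j = 2 * n * kap n := by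
  induction n with
  | zero => simp
  | succ n ih =>
    rw [sum_range_succ, ih]
    push_cast
    rw [kap_succ]; ring

theorem kap_sq (n : ℕ) : kap n ^ 2 * (2 * n + 1) ≤ 1 := by
  induction n with
  | zero => simp [kap_zero]
  | succ n ih =>
    have h := kap_succ n
    have hn : (0 : ℝ) ≤ n := Nat.cast_nonneg n
    have e : kap (n + 1) = (2 * n + 1) * kap n / (2 * (n + 1)) := by
      rw [← h]; field_simp
    rw [e]
    push_cast
    have h3 : ((2 * (n : ℝ) + 1) * kap n / (2 * (n + 1))) ^ 2 * (2 * (n + 1) + 1) =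
        (kap n ^ 2 * (2 * n + 1)) * ((2 * n + 1) * (2 * n + 3) / (2 * (n + 1)) ^ 2) := by
      field_simp
      ring
    rw [h3]
    have h4 : (2 * (n : ℝ) + 1) * (2 * n + 3) / (2 * (n + 1)) ^ 2 ≤ 1 := by
      rw [div_le_one (by positivity)]
      nlinarith
    have h5 : 0 ≤ kap n ^ 2 * (2 * (n : ℝ) + 1) := by positivity
    have h6 : 0 ≤ (2 * (n : ℝ) + 1) * (2 * n + 3) / (2 * (n + 1)) ^ 2 := by positivity
    calc _ ≤ 1 * 1 := mul_le_mul ih h4 h6 (by norm_num)
      _ = 1 := by norm_num

theorem kap_le (n : ℕ) : kap n ≤ 1 / Real.sqrt (2 * n + 1) := by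
  rw [le_div_iff₀ (Real.sqrt_pos.2 (by positivity))]
  have h := kap_sq n
  have h0 := kap_nonneg n
  have : (kap n * Real.sqrt (2 * n + 1)) ^ 2 ≤ 1 ^ 2 := by
    rw [mul_pow, Real.sq_sqrt (by positivity)]; simpa using h
  exact (abs_le_of_sq_le_sq' this (by norm_num)).2

section main

variable {P w τ x σ}

theorem q_nonneg (hw : ∀ b, 0 ≤ w b) (n c : ℕ) : 0 ≤ q P w τ n c :=
  sum_nonneg fun _ _ => ww_nonneg w hw _

theorem p_nonneg (hw : ∀ b, 0 ≤ w b) (n c : ℕ) : 0 ≤ p P w τ x n c :=
  sum_nonneg fun _ _ => ww_nonneg w hw _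

theorem W_nonneg (hw : ∀ b, 0 ≤ w b) (n c : ℕ) : 0 ≤ W P w τ x n c :=
  sum_nonneg fun _ _ => ww_nonneg w hw _

omit [DecidableEq β] in
theorem Pos_take {L : List β} (h : Pos x L) (k : ℕ) : Pos x (L.take k) := by
  intro j hj hj'
  have h1 : j ≤ k := by have := List.length_take_le k L; omega
  have h2 : j ≤ L.length := by have := List.length_take_le' k L; omega
  rw [List.take_take, min_eq_left h1]
  exact h j hj h2

/-- the cyclic shift inequality -/
theorem shift_le (hw : ∀ b, 0 ≤ w b) (n c : ℕ) :
    (n : ℝ) * p P w τ x n c ≤ ∑ k ∈ Icc 1 n, ∑ d ∈ range (c + 1),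
      W P w τ x k d * p P w τ x (n - k) (c - d) := by
  classical
  set A := ((listsN P n).filter (fun L => hh τ L = c ∧ Pos x L)) ×ˢ (Icc 1 n) with hA
  set B : Finset (Σ _ : ℕ × ℕ, List β × List β) := (Icc 1 n ×ˢ range (c + 1)).sigma fun kd =>
    ((listsN P kd.1).filter (fun L => hh τ L = kd.2 ∧ 0 < xs x L)) ×ˢ
      ((listsN P (n - kd.1)).filter (fun L => hh τ L = c - kd.2 ∧ Pos x L)) with hB
  have hex : ∀ a ∈ A, ∃ k, IsLast x a.1 a.2 k := by
    intro a ha
    rw [hA, mem_product, mem_filter, mem_listsN, mem_Icc] at ha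
    exact exists_last x a.1 a.2 (by omega)
  choose! κ hκ using hex
  let φ : List β × ℕ → (Σ _ : ℕ × ℕ, List β × List β) := fun a =>
    ⟨(κ a, hh τ (F a.1 a.2 (κ a)).1), F a.1 a.2 (κ a)⟩
  have hmem : ∀ a ∈ A, φ a ∈ B := by
    intro a ha
    have hk := hκ a ha
    have ha' := ha
    rw [hA, mem_product, mem_filter, mem_listsN, mem_Icc] at ha'
    obtain ⟨⟨⟨hl, hP⟩, hc, hpos⟩, hi1, hi2⟩ := ha'
    obtain ⟨f1, f2, f3, _⟩ := F_spec x hpos hi1 hk
    have hk1 := hk.1
    have hk2 := hk.2.1
    have hsum : hh τ (F a.1 a.2 (κ a)).1 + hh τ (F a.1 a.2 (κ a)).2 = c := by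
      show hh τ ((((a.1.take (κ a)).drop a.2)) ++ a.1.take a.2) + hh τ (a.1.drop (κ a)) = c
      have e1 : a.1 = (a.1.take (κ a)).take a.2 ++ (a.1.take (κ a)).drop a.2 ++
          a.1.drop (κ a) := by
        rw [List.take_append_drop, List.take_append_drop]
      have e2 : hh τ a.1 = hh τ ((a.1.take (κ a)).take a.2) + hh τ ((a.1.take (κ a)).drop a.2) +
          hh τ (a.1.drop (κ a)) := by
        conv_lhs => rw [e1]
        rw [hh_append, hh_append]
      rw [hh_append]
      rw [List.take_take, min_eq_left hk1] at e2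
      omega
    have hmem1 : ∀ b ∈ (F a.1 a.2 (κ a)).1, b ∈ P := by
      intro b hb
      refine hP b ?_
      rcases List.mem_append.1 hb with h | h
      · exact List.mem_of_mem_take (List.mem_of_mem_drop h)
      · exact List.mem_of_mem_take h
    have hmem2 : ∀ b ∈ (F a.1 a.2 (κ a)).2, b ∈ P :=
      fun b hb => hP b (List.mem_of_mem_drop hb)
    have hpk : 0 < ps x a.1 (κ a) := hpos (κ a) (by omega) hk2
    rw [hB, mem_sigma, mem_product, mem_product, mem_filter, mem_filter, mem_listsN, mem_listsN,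
      mem_Icc, mem_range]
    refine ⟨⟨⟨by show 1 ≤ κ a; omega, by show κ a ≤ n; omega⟩, ?_⟩,
      ⟨⟨f1, hmem1⟩, rfl, by rw [f2]; exact hpk⟩, ⟨⟨?_, hmem2⟩, ?_, f3⟩⟩
    · show hh τ (F a.1 a.2 (κ a)).1 < c + 1
      omega
    · show (a.1.drop (κ a)).length = n - κ a
      rw [List.length_drop]; omega
    · show hh τ (F a.1 a.2 (κ a)).2 = c - hh τ (F a.1 a.2 (κ a)).1
      omega
  have hinj : Set.InjOn φ A := by
    intro a ha b hb hab
    have hka := hκ a ha
    have hkb := hκ b hb
    have ha' := ha
    have hb' := hb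
    rw [hA, mem_coe, mem_product, mem_filter, mem_listsN, mem_Icc] at ha' hb'
    have e : F a.1 a.2 (κ a) = F b.1 b.2 (κ b) := by
      have := congrArg (fun s : (Σ _ : ℕ × ℕ, List β × List β) => s.2) hab
      exact this
    obtain ⟨h1, h2⟩ := F_inj x ha'.1.2.2 hb'.1.2.2 ha'.2.1 hb'.2.1 hka hkb e
    exact Prod.ext h1 h2
  let g : (Σ _ : ℕ × ℕ, List β × List β) → ℝ := fun s => ww w s.2.1 * ww w s.2.2
  have hg : ∀ a ∈ A, ww w a.1 = g (φ a) := by
    intro a ha
    have hk := hκ a ha
    show ww w a.1 = ww w ((((a.1.take (κ a)).drop a.2)) ++ a.1.take a.2) *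
      ww w (a.1.drop (κ a))
    have e1 : a.1 = (a.1.take (κ a)).take a.2 ++ (a.1.take (κ a)).drop a.2 ++
        a.1.drop (κ a) := by
      rw [List.take_append_drop, List.take_append_drop]
    conv_lhs => rw [e1]
    rw [ww_append, ww_append, ww_append, List.take_take, min_eq_left hk.1]
    ring
  have hB0 : ∀ b ∈ B, 0 ≤ g b := fun b _ => mul_nonneg (ww_nonneg w hw _) (ww_nonneg w hw _)
  calc (n : ℝ) * p P w τ x n c = ∑ a ∈ A, ww w a.1 := by
        rw [hA, sum_product, p, mul_sum]
        refine sum_congr rfl fun L _ => ?_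
        simp
    _ = ∑ a ∈ A, g (φ a) := sum_congr rfl hg
    _ = ∑ b ∈ A.image φ, g b := (sum_image (f := g) hinj).symm
    _ ≤ ∑ b ∈ B, g b := by
        refine sum_le_sum_of_subset_of_nonneg ?_ fun b hb _ => hB0 b hb
        intro b hb
        obtain ⟨a, ha, rfl⟩ := mem_image.1 hb
        exact hmem a ha
    _ = _ := by
        rw [hB, sum_sigma, sum_product]
        refine sum_congr rfl fun k _ => sum_congr rfl fun d _ => ?_
        rw [W, p, sum_mul_sum, ← sum_product']

/-- concatenation -/
theorem q_conv (hw : ∀ b, 0 ≤ w b) (k m c : ℕ) :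
    ∑ d ∈ range (c + 1), q P w τ k d * q P w τ m (c - d) ≤ q P w τ (k + m) c := by
  classical
  set B : Finset (Σ _ : ℕ, List β × List β) := (range (c + 1)).sigma fun d =>
    ((listsN P k).filter (fun L => hh τ L = d)) ×ˢ
      ((listsN P m).filter (fun L => hh τ L = c - d)) with hB
  let φ : (Σ _ : ℕ, List β × List β) → List β := fun s => s.2.1 ++ s.2.2
  have hinj : Set.InjOn φ B := by
    rintro ⟨d, L, L'⟩ ha ⟨e, M, M'⟩ hb hab
    rw [hB, mem_coe, mem_sigma, mem_product, mem_filter, mem_filter, mem_listsN,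
      mem_listsN] at ha hb
    obtain ⟨_, ⟨⟨h1, _⟩, h2⟩, _⟩ := ha
    obtain ⟨_, ⟨⟨g1, _⟩, g2⟩, _⟩ := hb
    obtain ⟨e1, e2⟩ := List.append_inj hab (h1.trans g1.symm)
    simp only at e1 e2 h2 g2
    subst e1
    subst e2
    have : d = e := h2.symm.trans g2
    subst this
    rfl
  calc ∑ d ∈ range (c + 1), q P w τ k d * q P w τ m (c - d)
      = ∑ b ∈ B, ww w b.2.1 * ww w b.2.2 := by
        rw [hB, sum_sigma]
        refine sum_congr rfl fun d _ => ?_
        rw [q, q, sum_mul_sum, ← sum_product']
    _ = ∑ b ∈ B, ww w (φ b) := sum_congr rfl fun b _ => (ww_append w _ _).symm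
    _ = ∑ L ∈ B.image φ, ww w L := (sum_image (f := ww w) hinj).symm
    _ ≤ q P w τ (k + m) c := by
        refine sum_le_sum_of_subset_of_nonneg ?_ fun b _ _ => ww_nonneg w hw b
        intro b hb
        obtain ⟨⟨d, L, L'⟩, ha, rfl⟩ := mem_image.1 hb
        rw [hB, mem_sigma, mem_product, mem_filter, mem_filter, mem_listsN, mem_listsN,
          mem_range] at ha
        obtain ⟨h0, ⟨⟨h1, h1'⟩, h2⟩, ⟨h3, h3'⟩, h4⟩ := ha
        simp only at h0 h1 h1' h2 h3 h3' h4
        rw [mem_filter, mem_listsN]
        refine ⟨⟨?_, ?_⟩, ?_⟩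
        · show (L ++ L').length = k + m
          rw [List.length_append, h1, h3]
        · intro b hb
          rcases List.mem_append.1 hb with h | h
          · exact h1' b h
          · exact h3' b h
        · show hh τ (L ++ L') = c
          rw [hh_append, h2, h4]; omega

/-- reflection -/
theorem W_le (hw : ∀ b, 0 ≤ w b) (hσ : ∀ b ∈ P, σ b ∈ P) (hσσ : ∀ b, σ (σ b) = b)
    (hwσ : ∀ b, w (σ b) = w b) (hτσ : ∀ b, τ (σ b) = τ b) (hxσ : ∀ b, x (σ b) = - x b)
    (n c : ℕ) : 2 * W P w τ x n c ≤ q P w τ n c := by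
  classical
  have hm1 : ∀ L : List β, hh τ (L.map σ) = hh τ L := by
    intro L
    induction L with
    | nil => rfl
    | cons a L ih =>
      simp only [hh, List.map_cons, List.sum_cons, List.map_map] at ih ⊢
      rw [ih, hτσ]
  have hm2 : ∀ L : List β, xs x (L.map σ) = - xs x L := by
    intro L
    induction L with
    | nil => simp [xs]
    | cons a L ih =>
      simp only [xs, List.map_cons, List.sum_cons, List.map_map] at ih ⊢
      rw [ih, hxσ]; ring
  have hm3 : ∀ L : List β, ww w (L.map σ) = ww w L := by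
    intro L
    induction L with
    | nil => rfl
    | cons a L ih =>
      simp only [ww, List.map_cons, List.prod_cons, List.map_map] at ih ⊢
      rw [ih, hwσ]
  have hσσ' : ∀ L : List β, (L.map σ).map σ = L := by
    intro L; rw [List.map_map]; conv_rhs => rw [← List.map_id L]
    exact List.map_congr_left fun a _ => hσσ a
  have hmem : ∀ L ∈ listsN P n, L.map σ ∈ listsN P n := by
    intro L hL
    rw [mem_listsN] at hL ⊢
    refine ⟨by rw [List.length_map]; exact hL.1, fun b hb => ?_⟩
    obtain ⟨a, ha, rfl⟩ := List.mem_map.1 hb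
    exact hσ a (hL.2 a ha)
  have hneg : ∑ L ∈ (listsN P n).filter (fun L => hh τ L = c ∧ xs x L < 0), ww w L =
      W P w τ x n c := by
    rw [W]
    refine Finset.sum_nbij' (fun L => L.map σ) (fun L => L.map σ) ?_ ?_ ?_ ?_ ?_
    · intro L hL
      rw [mem_filter] at hL ⊢
      refine ⟨hmem L hL.1, by rw [hm1]; exact hL.2.1, ?_⟩
      rw [hm2]; have := hL.2.2; omega
    · intro L hL
      rw [mem_filter] at hL ⊢
      refine ⟨hmem L hL.1, by rw [hm1]; exact hL.2.1, ?_⟩
      rw [hm2]; have := hL.2.2; omega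
    · intro L _; exact hσσ' L
    · intro L _; exact hσσ' L
    · intro L _; exact (hm3 L).symm
  have hdisj : Disjoint ((listsN P n).filter (fun L => hh τ L = c ∧ 0 < xs x L))
      ((listsN P n).filter (fun L => hh τ L = c ∧ xs x L < 0)) := by
    rw [Finset.disjoint_left]
    intro L h1 h2
    rw [mem_filter] at h1 h2
    have := h1.2.2; have := h2.2.2; omega
  calc 2 * W P w τ x n c = W P w τ x n c +
        ∑ L ∈ (listsN P n).filter (fun L => hh τ L = c ∧ xs x L < 0), ww w L := by
        rw [hneg]; ring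
    _ = ∑ L ∈ ((listsN P n).filter (fun L => hh τ L = c ∧ 0 < xs x L)) ∪
        ((listsN P n).filter (fun L => hh τ L = c ∧ xs x L < 0)), ww w L := by
        rw [W, sum_union hdisj]
    _ ≤ q P w τ n c := by
        refine sum_le_sum_of_subset_of_nonneg ?_ fun b _ _ => ww_nonneg w hw b
        intro L hL
        rw [mem_union, mem_filter, mem_filter] at hL
        rw [mem_filter]
        rcases hL with h | h
        · exact ⟨h.1, h.2.1⟩
        · exact ⟨h.1, h.2.1⟩

/-- **Sparre Andersen inequality**: among the lists of length `n` and height `c` the positive ones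
have at most the proportion `binom(2n, n) / 4^n`. -/
theorem sparre (hw : ∀ b, 0 ≤ w b) (hσ : ∀ b ∈ P, σ b ∈ P) (hσσ : ∀ b, σ (σ b) = b)
    (hwσ : ∀ b, w (σ b) = w b) (hτσ : ∀ b, τ (σ b) = τ b) (hxσ : ∀ b, x (σ b) = - x b)
    (n c : ℕ) : p P w τ x n c ≤ kap n * q P w τ n c := by
  classical
  induction n using Nat.strong_induction_on generalizing c with
  | _ n ih =>
    rcases Nat.eq_zero_or_pos n with rfl | hn
    · rw [kap_zero, one_mul, p, q]
      refine sum_le_sum_of_subset_of_nonneg ?_ fun b _ _ => ww_nonneg w hw b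
      intro L hL
      rw [mem_filter] at hL ⊢
      exact ⟨hL.1, hL.2.1⟩
    · have hn0 : (0 : ℝ) < n := by exact_mod_cast hn
      have h1 := shift_le (P := P) (τ := τ) (x := x) hw n c
      have h2 : ∑ k ∈ Icc 1 n, ∑ d ∈ range (c + 1),
          W P w τ x k d * p P w τ x (n - k) (c - d) ≤
          ∑ k ∈ Icc 1 n, (1 / 2) * kap (n - k) * q P w τ n c := by
        refine sum_le_sum fun k hk => ?_
        rw [mem_Icc] at hk
        calc ∑ d ∈ range (c + 1), W P w τ x k d * p P w τ x (n - k) (c - d)
            ≤ ∑ d ∈ range (c + 1), (1 / 2 * q P w τ k d) *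
                (kap (n - k) * q P w τ (n - k) (c - d)) := by
              refine sum_le_sum fun d _ => ?_
              have e1 := W_le (x := x) hw hσ hσσ hwσ hτσ hxσ k d
              have e2 := ih (n - k) (by omega) (c - d)
              refine mul_le_mul (by linarith) e2 (p_nonneg hw _ _) ?_
              have := q_nonneg (P := P) (τ := τ) hw k d
              linarith
          _ = 1 / 2 * kap (n - k) *
                ∑ d ∈ range (c + 1), q P w τ k d * q P w τ (n - k) (c - d) := by
              rw [mul_sum]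
              refine sum_congr rfl fun d _ => ?_
              ring
          _ ≤ 1 / 2 * kap (n - k) * q P w τ n c := by
              refine mul_le_mul_of_nonneg_left ?_ (by have := kap_nonneg (n - k); linarith)
              have := q_conv (P := P) (τ := τ) hw k (n - k) c
              rwa [show k + (n - k) = n by omega] at this
      have h3 : ∑ k ∈ Icc 1 n, (1 / 2) * kap (n - k) * q P w τ n c =
          n * (kap n * q P w τ n c) := by
        rw [← sum_mul, ← mul_sum]
        have h4 : ∑ k ∈ Icc 1 n, kap (n - k) = ∑ j ∈ range n, kap j := by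
          refine Finset.sum_nbij' (fun k => n - k) (fun j => n - j) ?_ ?_ ?_ ?_ ?_
          · intro k hk; rw [mem_Icc] at hk; rw [mem_range]; omega
          · intro k hk; rw [mem_range] at hk; rw [mem_Icc]; omega
          · intro k hk; rw [mem_Icc] at hk; omega
          · intro k hk; rw [mem_range] at hk; omega
          · intro k _; rfl
        rw [h4, sum_kap]
        ring
      have h5 : (n : ℝ) * p P w τ x n c ≤ n * (kap n * q P w τ n c) := by
        rw [← h3]; exact h1.trans h2
      exact le_of_mul_le_mul_left h5 hn0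

end main

end Pool.SA
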