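import Pool.Agent.Helper72.PT.St
import Pool.Agent.Helper16.PT.SA

/-! PT module SA2: positive lists of letters -/

open Finset

namespace Pool.PT.SA2

open Pool.PL Pool.SA

theorem sa2 : StSA2 := by
  classical
  intro β _ J ω ξ T s hω hs hss hωs hξs hTs n t
  have h := sparre (P := J) (w := ω) (τ := T) (x := ξ) (σ := s) hω hs hss hωs hTs hξs n t
  have hk := kap_le n
  have hk0 := kap_nonneg n
  have e1 : (lists J n).filter (fun l => l.length = n ∧ (l.map T).sum = t ∧
      ∀ k, k <+: l → k ≠ [] → 0 < (k.map ξ).sum) =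
      (listsN J n).filter (fun L => hh T L = t ∧ Pos ξ L) := by
    ext l
    rw [mem_filter, mem_filter, mem_lists, mem_listsN]
    constructor
    · rintro ⟨⟨_, h2⟩, h3, h4, h5⟩
      refine ⟨⟨h3, h2⟩, h4, fun k hk hk' => ?_⟩
      refine h5 (l.take k) (List.take_prefix _ _) fun h0 => ?_
      have := congrArg List.length h0
      rw [List.length_take, List.length_nil] at this
      omega
    · rintro ⟨⟨h3, h2⟩, h4, h5⟩
      refine ⟨⟨h3.le, h2⟩, h3, h4, fun k hk hk' => ?_⟩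
      have h6 := h5 k.length (by have := List.length_pos_iff.2 hk'; omega) hk.length_le
      rwa [← List.prefix_iff_eq_take.1 hk] at h6
  have e2 : (lists J n).filter (fun l => l.length = n ∧ (l.map T).sum = t) =
      (listsN J n).filter (fun L => hh T L = t) := by
    ext l
    rw [mem_filter, mem_filter, mem_lists, mem_listsN]
    constructor
    · rintro ⟨⟨_, h2⟩, h3, h4⟩
      exact ⟨⟨h3, h2⟩, h4⟩
    · rintro ⟨⟨h3, h2⟩, h4⟩
      exact ⟨⟨h3.le, h2⟩, h3, h4⟩
  rw [e1, e2]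
  change p J ω T ξ n t * Real.sqrt ((n : ℝ) + 1) ≤ q J ω T n t
  have hq := q_nonneg (P := J) (τ := T) hω n t
  have hs1 : Real.sqrt ((n : ℝ) + 1) ≤ Real.sqrt (2 * n + 1) := by
    refine Real.sqrt_le_sqrt ?_
    have : (0 : ℝ) ≤ n := Nat.cast_nonneg n
    linarith
  have hs0 : 0 < Real.sqrt (2 * (n : ℝ) + 1) := Real.sqrt_pos.2 (by positivity)
  have h2 : kap n * Real.sqrt ((n : ℝ) + 1) ≤ 1 := by
    calc kap n * Real.sqrt ((n : ℝ) + 1) ≤ (1 / Real.sqrt (2 * n + 1)) * Real.sqrt (2 * n + 1) :=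
          mul_le_mul hk hs1 (Real.sqrt_nonneg _) (by positivity)
      _ = 1 := by field_simp
  calc p J ω T ξ n t * Real.sqrt ((n : ℝ) + 1)
      ≤ kap n * q J ω T n t * Real.sqrt ((n : ℝ) + 1) :=
        mul_le_mul_of_nonneg_right h (Real.sqrt_nonneg _)
    _ = (kap n * Real.sqrt ((n : ℝ) + 1)) * q J ω T n t := by ring
    _ ≤ 1 * q J ω T n t := mul_le_mul_of_nonneg_right h2 hq
    _ = q J ω T n t := one_mul _

end Pool.PT.SA2
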